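import Pool.Agent.MP_8d06cc_nt.VAL.Place
import Pool.Agent.MP_8d06cc_nt.AB.Spec

/-! Block VAL: block R4 over an arbitrary extension of the complex numbers. -/

namespace Pool.Agent.MP_8d06cc_nt.VAL

open Polynomial DA AB

noncomputable section

lemma toVF {L : Type} [Field L] [Algebra ℂ L] {O : ValuationSubring L} (v : Vk ℂ O) :
    ∃ V : VF L, V.O = O := by
  have hk : ∀ c : ℂ, algebraMap ℂ L c ∈ O := fun c => by
    by_cases h : c = 0
    · rw [h, map_zero]
      exact O.zero_mem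
    · exact (O.valuation_le_one_iff _).1 (v.unit c h).le
  let cst : ℂ →+* O := (algebraMap ℂ L).codRestrict O hk
  have bij : Function.Bijective ((IsLocalRing.residue O).comp cst) := by
    refine ⟨RingHom.injective _, fun z => ?_⟩
    obtain ⟨x, rfl⟩ := IsLocalRing.residue_surjective z
    obtain ⟨c, hc⟩ := v.res x (O.valuation_le_one x)
    refine ⟨c, (sub_eq_zero.1 ?_).symm⟩
    rw [RingHom.comp_apply, ← map_sub, IsLocalRing.residue_eq_zero_iff, O.valuation_lt_one_iff]
    exact hc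
  let E := RingEquiv.ofBijective _ bij
  refine ⟨⟨O, E.symm.toRingHom.comp (IsLocalRing.residue O), cst, fun _ => rfl,
    fun c => E.symm_apply_apply c, fun x => ?_, fun x y hx y0 => ?_⟩, rfl⟩
  · rw [← O.valuation_lt_one_iff, ← IsLocalRing.residue_eq_zero_iff]
    exact E.symm.map_eq_zero_iff
  · obtain ⟨n, hn⟩ := v.arch x y hx y0
    rcases eq_or_ne (O.valuation x) 0 with h | h
    · exact ⟨1, by simpa [h, pos_iff_ne_zero] using y0⟩
    · exact ⟨n + 1, (pow_lt_pow_right_of_lt_one₀ (zero_lt_iff.2 h) hx n.lt_succ_self).trans_le hn⟩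

section lift

variable {K L : Type} [Field K] [Field L] {R : Subring K} (h : R →+* L)

lemma ne_zero {x : R} (h0 : (x : K) ≠ 0) (hx : (x : K)⁻¹ ∈ R) : h x ≠ 0 := by
  have e : x * ⟨_, hx⟩ = 1 := Subtype.ext (mul_inv_cancel₀ h0)
  exact left_ne_zero_of_mul_eq_one (by rw [← map_mul, e, map_one])

lemma lift {p : K[X]} (hp : ∀ n, p.coeff n ∈ R) : ∃ q : R[X], q.map R.subtype = p :=
  (mem_lifts _).1 ((lifts_iff_coeff_lifts _).2 fun n => ⟨⟨_, hp n⟩, rfl⟩)

lemma ev (p : R[X]) (a : R) : (p.map R.subtype).eval (R.subtype a) = (p.eval a : R) := by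
  rw [eval_map_apply]
  rfl

lemma WW_map {A B : Type} [CommRing A] [CommRing B] (g : A →+* B) (f : A[X]) (N : ℕ) (P : PD A) :
    (WW derivative f P.A P.B).map g = WW derivative (f.map g) (P.map g).A (P.map g).B ∧
    (C (2 * N * P.c) * (X - C P.a) ^ (2 * N - 1) * P.Q).map g =
      C (2 * N * (P.map g).c) * (X - C (P.map g).a) ^ (2 * N - 1) * (P.map g).Q := by
  constructor
  · simp only [WW, PD.map, Polynomial.map_add, Polynomial.map_mul, Polynomial.map_sub,
      derivative_map, Polynomial.map_ofNat]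
  · simp only [PD.map, Polynomial.map_mul, Polynomial.map_sub, Polynomial.map_pow, map_X, map_C]
    rw [map_mul g, map_mul g, map_natCast, map_ofNat]

lemma ok_map {f : R[X]} {N : ℕ} {P : PD R} (H : (P.map R.subtype).OK (f.map R.subtype) N)
    (h1 : (P.c : K)⁻¹ ∈ R) (h2 : ((P.A.map R.subtype).eval (P.a : K))⁻¹ ∈ R)
    (h3 : ((f.map R.subtype).eval (P.a : K))⁻¹ ∈ R) : (P.map h).OK (f.map h) N := by
  have inj := map_injective R.subtype R.subtype_injective
  have dg : ∀ p : R[X], (p.map h).natDegree ≤ (p.map R.subtype).natDegree := fun p =>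
    natDegree_map_eq_of_injective R.subtype_injective p ▸ natDegree_map_le
  have e1 : P.A ^ 2 - f * P.B ^ 2 = C P.c * (X - C P.a) ^ (2 * N) :=
    inj (by simpa [PD.map] using H.eqn)
  have e2 : P.A.eval P.a + P.B.eval P.a * P.b = 0 := R.subtype_injective (by
    have := H.hb
    simp only [PD.map, ev] at this
    simpa using this)
  have e3 : WW derivative f P.A P.B = C (2 * N * P.c) * (X - C P.a) ^ (2 * N - 1) * P.Q :=
    inj (by rw [(WW_map _ f N P).1, (WW_map _ f N P).2, H.hQ])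
  refine ⟨H.pos, (dg _).trans H.dA, le_trans (Nat.add_le_add_right (dg _) 4) H.dB, ?_,
    ne_zero h H.hc h1, ?_, ?_, ?_, ?_⟩
  · simpa [PD.map] using congrArg (Polynomial.map h) e1
  · simp only [PD.map, eval_map_apply]
    exact ne_zero h (ev P.A P.a ▸ H.hA) (ev P.A P.a ▸ h2)
  · simp only [PD.map, eval_map_apply]
    exact ne_zero h (ev f P.a ▸ H.hf) (ev f P.a ▸ h3)
  · simp only [PD.map, eval_map_apply]
    rw [← map_mul, ← map_add, e2, map_zero]
  · rw [← (WW_map _ f N P).1, ← (WW_map _ f N P).2, e3]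

end lift

/-- the outcome of the blocks VAL and R4 -/
def S_VAL : Prop := ∀ (K : Type) [Field K] [Algebra ℂ K] (f : K[X]) (N : ℕ) (P : Fin 4 → PD K),
  f.natDegree = 8 → f.Separable → (∀ i, (P i).OK f N) → (Function.Injective fun i => (P i).a) →
  Rk2 P → (∀ i j, i ≠ j → gam (P i) (P j) / gam (P j) (P i) ∈ (algebraMap ℂ K).range) →
  ∀ i j, i ≠ j → ¬ Transcendental ℂ (gam (P i) (P j))

theorem val (pl : S_PELL) (h4 : StmtR4) : S_VAL := by
  intro K _ _ f N P hd ⟨u, w, huw⟩ ok inj ⟨i₀, j₀, n₀, rk⟩ sym i j ij tr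
  have : CharZero K := charZero_of_injective_algebraMap (algebraMap ℂ K).injective
  choose α β rk using rk
  let T : Set K[X] := {f, u, w} ∪ ⋃ i, {(P i).A, (P i).B, (P i).Q}
  have hT : T.Finite := (Set.toFinite _).union (Set.finite_iUnion fun _ => Set.toFinite _)
  let S : Set K := (⋃ p ∈ T, Set.range p.coeff) ∪ ⋃ i, ⋃ j, {(P i).a, (P i).b, (P i).c, α i, β i,
    (P i).A.eval (P i).a, f.eval (P i).a, (P i).a - (P j).a, gam (P i) (P j)}
  obtain ⟨L, _, _, _, O, R, h, v, hS, hc, m, hm⟩ := val1 tr (S := S)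
    ((hT.biUnion fun p _ => p.toFinsupp.coeff.finite_range).union
      (Set.finite_iUnion fun _ => Set.finite_iUnion fun _ => Set.toFinite _))
  have : CharZero L := charZero_of_injective_algebraMap (algebraMap ℂ L).injective
  have s1 : ∀ p ∈ T, ∀ n, p.coeff n ∈ R ∧ (p.coeff n)⁻¹ ∈ R := fun p hp n =>
    hS _ (.inl (Set.mem_biUnion hp ⟨n, rfl⟩))
  have s2 : ∀ i j, ∀ x ∈ ({(P i).a, (P i).b, (P i).c, α i, β i, (P i).A.eval (P i).a,
      f.eval (P i).a, (P i).a - (P j).a, gam (P i) (P j)} : Set K), x ∈ R ∧ x⁻¹ ∈ R :=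
    fun i j x hx => hS _ (.inr (Set.mem_iUnion₂.2 ⟨i, j, hx⟩))
  have s3 : ∀ i, ∀ p ∈ ({(P i).A, (P i).B, (P i).Q} : Set K[X]), ∃ q : R[X], q.map R.subtype = p :=
    fun i p hp => lift fun n => (s1 p (.inr (Set.mem_iUnion.2 ⟨i, hp⟩)) n).1
  obtain ⟨f', rfl⟩ := lift fun n => (s1 f (.inl (by simp)) n).1
  obtain ⟨u', rfl⟩ := lift fun n => (s1 u (.inl (by simp)) n).1
  obtain ⟨w', rfl⟩ := lift fun n => (s1 w (.inl (by simp)) n).1
  obtain ⟨P', hP⟩ : ∃ P' : Fin 4 → PD R, ∀ i, (P' i).map R.subtype = P i := by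
    refine Classical.skolem (p := fun i (Q : PD R) => Q.map R.subtype = P i).1 fun i => ?_
    obtain ⟨A, hA⟩ := s3 i (P i).A (by simp)
    obtain ⟨B, hB⟩ := s3 i (P i).B (by simp)
    obtain ⟨Q, hQ⟩ := s3 i (P i).Q (by simp)
    exact ⟨⟨⟨_, (s2 i i (P i).a (by simp)).1⟩, ⟨_, (s2 i i (P i).b (by simp)).1⟩,
      ⟨_, (s2 i i (P i).c (by simp)).1⟩, A, B, Q⟩, by simp only [PD.map, hA, hB, hQ]; rfl⟩
  obtain rfl : P = fun i => (P' i).map R.subtype := funext fun i => (hP i).symm
  have pinj := map_injective R.subtype R.subtype_injective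
  have ok' : ∀ i, ((P' i).map h).OK (f'.map h) N := fun i => ok_map h (ok i)
    (s2 i i _ (by simp [PD.map])).2 (s2 i i _ (by simp [PD.map])).2 (s2 i i _ (by simp [PD.map])).2
  have inj' : Function.Injective fun i => ((P' i).map h).a := fun k l e => by
    by_contra n
    refine ne_zero h (x := (P' k).a - (P' l).a) (sub_ne_zero.2 (inj.ne n))
      (s2 k l _ (by simp [PD.map])).2 ?_
    rw [map_sub]
    exact sub_eq_zero.2 e
  have hg : ∀ k l, k ≠ l → ∀ q, h ⟨gam ((P' k).map R.subtype) ((P' l).map R.subtype), q⟩ =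
      gam ((P' k).map h) ((P' l).map h) := fun k l n q => by
    have d := (pl.gam_ne K _ N _ _ (ok k) (ok l) (inj.ne n)).2
    have d' := (pl.gam_ne L _ N _ _ (ok' k) (ok' l) (inj'.ne n)).2
    have e : (⟨_, q⟩ : R) * ((P' k).A.eval (P' l).a - (P' k).B.eval (P' l).a * (P' l).b) =
        (P' k).A.eval (P' l).a + (P' k).B.eval (P' l).a * (P' l).b := Subtype.ext (by
      have := div_mul_cancel₀ (((P' k).map R.subtype).A.eval ((P' l).map R.subtype).a +
        ((P' k).map R.subtype).B.eval ((P' l).map R.subtype).a * ((P' l).map R.subtype).b) d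
      rw [← gam] at this
      simp only [PD.map, ev] at this ⊢
      exact this)
    refine (eq_div_iff d').2 ?_
    simpa only [PD.map, eval_map_apply, map_mul, map_add, map_sub] using congrArg h e
  obtain ⟨V, rfl⟩ := toVF v
  have key := h4 L V (f'.map h) N (fun i => (P' i).map h) ?_ ?_ ok' inj' ⟨i₀, j₀, n₀, fun k => ?_⟩
    (fun k l n => ?_) i j ij
  · rw [hg i j ij m, key] at hm
    exact lt_irrefl _ hm
  · have d : f'.natDegree = 8 := (natDegree_map_eq_of_injective R.subtype_injective f').symm.trans hd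
    rw [← d]
    refine natDegree_map_of_leadingCoeff_ne_zero h (ne_zero h ?_ ?_)
    · exact fun e => by
        rw [leadingCoeff_eq_zero.1 (Subtype.ext e : f'.leadingCoeff = 0)] at d
        simp at d
    · simpa using (s1 (f'.map R.subtype) (.inl (by simp)) f'.natDegree).2
  · have e : u' * f' + w' * derivative f' = 1 := pinj (by simpa using huw)
    exact ⟨u'.map h, w'.map h, by simpa using congrArg (Polynomial.map h) e⟩
  · have e : (P' k).Q = C ⟨_, (s2 k k (α k) (by simp)).1⟩ * (P' i₀).Q +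
        C ⟨_, (s2 k k (β k) (by simp)).1⟩ * (P' j₀).Q := pinj (by simpa [PD.map] using rk k)
    exact ⟨_, _, by simpa [PD.map] using congrArg (Polynomial.map h) e⟩
  · obtain ⟨c, e⟩ := sym k l n
    have g : ∀ k l, k ≠ l → gam ((P' k).map R.subtype) ((P' l).map R.subtype) ≠ 0 := fun k l n =>
      have d := pl.gam_ne K _ N _ _ (ok k) (ok l) (inj.ne n)
      div_ne_zero d.1 d.2
    have c0 : c ≠ 0 := fun z => div_ne_zero (g k l n) (g l k n.symm) (by rw [← e, z, map_zero])
    obtain ⟨mc, ec⟩ := hc c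
    have q1 := (s2 k l (gam ((P' k).map R.subtype) ((P' l).map R.subtype)) (by simp)).1
    have q2 := (s2 l k (gam ((P' l).map R.subtype) ((P' k).map R.subtype)) (by simp)).1
    have e' : (⟨_, q1⟩ : R) = ⟨_, mc⟩ * ⟨_, q2⟩ :=
      Subtype.ext ((eq_div_iff (g l k n.symm)).1 e).symm
    rw [← hg k l n q1, ← hg l k n.symm q2, e', map_mul, map_mul, ec, v.unit c c0, one_mul]

end

end Pool.Agent.MP_8d06cc_nt.VAL
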