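import Mathlib

/-! Block VAL: specialisation to a rank one valued field with residue field `k`. -/

namespace Pool.Agent.MP_8d06cc_nt.VAL

open Polynomial

noncomputable section

section val

variable {k L : Type} [Field k] [Field L] [Algebra k L] (O : ValuationSubring L) {t : L}

lemma unit (hk : ∀ c : k, algebraMap k L c ∈ O) {c : k} (hc : c ≠ 0) :
    O.valuation (algebraMap k L c) = 1 := by
  refine le_antisymm ((O.valuation_le_one_iff _).2 (hk c)) ?_
  have := (O.valuation_le_one_iff _).2 (hk c⁻¹)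
  rw [map_inv₀, map_inv₀] at this
  exact (inv_le_one₀ (by simpa [pos_iff_ne_zero] using hc)).1 this

lemma aeval_le (hk : ∀ c : k, algebraMap k L c ∈ O) {x : L} (hx : O.valuation x ≤ 1) (q : k[X]) :
    O.valuation (aeval x q) ≤ 1 := by
  rw [aeval_eq_sum_range]
  refine Valuation.map_sum_le _ fun i _ => ?_
  rw [Algebra.smul_def, map_mul, map_pow]
  exact mul_le_one' ((O.valuation_le_one_iff _).2 (hk _)) (pow_le_one' hx i)

/-- the value of a polynomial at a point of the maximal ideal -/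
lemma aeval_eq (hk : ∀ c : k, algebraMap k L c ∈ O) {x : L} (hx : O.valuation x < 1) {q : k[X]}
    (hq : q ≠ 0) : ∃ n : ℕ, O.valuation (aeval x q) = O.valuation x ^ n := by
  obtain ⟨r, e, hr⟩ := exists_eq_pow_rootMultiplicity_mul_and_not_dvd q hq 0
  refine ⟨rootMultiplicity 0 q, ?_⟩
  conv_lhs => rw [e]
  rw [map_zero, sub_zero] at hr ⊢
  have h1 : O.valuation (aeval x (divX r * X)) < O.valuation (aeval x (C (r.coeff 0))) := by
    rw [aeval_C, unit O hk (mt X_dvd_iff.2 hr), map_mul, map_mul, aeval_X]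
    exact (mul_le_of_le_one_left' (aeval_le O hk hx.le _)).trans_lt hx
  rw [map_mul, map_mul, map_pow, map_pow, aeval_X, ← divX_mul_X_add r, map_add,
    Valuation.map_add_eq_of_lt_right _ h1, aeval_C, unit O hk (mt X_dvd_iff.2 hr), mul_one]

/-- an integral algebraic element is approximately a root of a polynomial over `k` -/
lemma approx (hk : ∀ c : k, algebraMap k L c ∈ O) (ht : O.valuation t ≤ 1) (t0 : t ≠ 0) {x : L}
    (hx : O.valuation x ≤ 1) (p : k[X][X]) (hp : p ≠ 0)
    (h : p.eval₂ (aeval t : k[X] →ₐ[k] L) x = 0) :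
    ∃ q : k[X], q ≠ 0 ∧ O.valuation (aeval x q) ≤ O.valuation t := by
  induction hn : (p.leadingCoeff).natDegree using Nat.strong_induction_on generalizing p with
  | _ n ih =>
  by_cases hd : ∀ i, X ∣ p.coeff i
  · obtain ⟨p', rfl⟩ := (C_dvd_iff_dvd_coeff X p).2 hd
    have p0 : p' ≠ 0 := right_ne_zero_of_mul hp
    refine ih _ ?_ p' p0 ?_ rfl
    · rw [← hn, leadingCoeff_mul, leadingCoeff_C, natDegree_X_mul (leadingCoeff_ne_zero.2 p0)]
      exact Nat.lt_succ_self _
    · rw [eval₂_mul, eval₂_C] at h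
      exact (mul_eq_zero.1 h).resolve_left (by simpa using t0)
  refine ⟨p.map (evalRingHom 0), fun e => hd fun i => X_dvd_iff.2 ?_, ?_⟩
  · simpa [coeff_zero_eq_eval_zero] using congrArg (coeff · i) e
  rw [aeval_def, eval₂_map, ← sub_zero (eval₂ _ _ _), ← h, eval₂_eq_sum_range, eval₂_eq_sum_range,
    ← Finset.sum_sub_distrib]
  refine Valuation.map_sum_le _ fun i _ => ?_
  have e : ((algebraMap k L).comp (evalRingHom 0)) (p.coeff i) * x ^ i -
      ((aeval t : k[X] →ₐ[k] L) : k[X] →+* L) (p.coeff i) * x ^ i =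
      -(aeval t (divX (p.coeff i)) * x ^ i) * t := by
    conv_lhs => rw [← divX_mul_X_add (p.coeff i)]
    simp
    ring
  rw [e, map_mul, Valuation.map_neg, map_mul, map_pow]
  exact mul_le_of_le_one_left' (mul_le_one' (aeval_le O hk ht _) (pow_le_one' hx i))

/-- a lower bound for the value of an algebraic element -/
lemma lower (hk : ∀ c : k, algebraMap k L c ∈ O) (ht : O.valuation t < 1) {y : L} (y0 : y ≠ 0)
    (p : k[X][X]) (hp : p ≠ 0) (h : p.eval₂ (aeval t : k[X] →ₐ[k] L) y = 0) :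
    ∃ n : ℕ, O.valuation t ^ n ≤ O.valuation y := by
  rcases le_total 1 (O.valuation y) with hy | hy
  · exact ⟨0, by rwa [pow_zero]⟩
  obtain ⟨r, e, hr⟩ := exists_eq_pow_rootMultiplicity_mul_and_not_dvd p hp 0
  rw [map_zero, sub_zero] at hr e
  rw [e, eval₂_mul, eval₂_X_pow] at h
  replace h := (mul_eq_zero.1 h).resolve_left (pow_ne_zero _ y0)
  obtain ⟨n, hn⟩ := aeval_eq O hk ht (mt X_dvd_iff.2 hr)
  refine ⟨n, ?_⟩
  rw [← divX_mul_X_add r, eval₂_add, eval₂_mul, eval₂_X, eval₂_C, add_eq_zero_iff_neg_eq] at h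
  rw [← hn, show aeval t (r.coeff 0) = _ from h.symm, Valuation.map_neg, map_mul]
  refine mul_le_of_le_one_left' ?_
  rw [eval₂_eq_sum_range]
  refine Valuation.map_sum_le _ fun i _ => ?_
  rw [map_mul, map_pow]
  exact mul_le_one' (aeval_le O hk ht.le _) (pow_le_one' hy i)

end val

/-- A valued field over `k` with residue field `k` and archimedean value group. -/
structure Vk (k : Type) {L : Type} [Field k] [Field L] [Algebra k L] (O : ValuationSubring L) :
    Prop where
  unit : ∀ c : k, c ≠ 0 → O.valuation (algebraMap k L c) = 1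
  res : ∀ x, O.valuation x ≤ 1 → ∃ c : k, O.valuation (x - algebraMap k L c) < 1
  arch : ∀ x y, O.valuation x < 1 → y ≠ 0 → ∃ n : ℕ, O.valuation x ^ n ≤ O.valuation y

theorem exists_val {k L : Type} [Field k] [IsAlgClosed k] [Field L] [Algebra k L] {t : L}
    (tr : Transcendental k t)
    (al : ∀ x : L, ∃ p : k[X][X], p ≠ 0 ∧ p.eval₂ (aeval t : k[X] →ₐ[k] L) x = 0) :
    ∃ O : ValuationSubring L, Vk k O ∧ O.valuation t < 1 := by
  have inj := transcendental_iff_injective.1 tr
  have t0 : t ≠ 0 := fun e => tr (e ▸ isAlgebraic_zero)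
  obtain ⟨O, h1, h2⟩ := Ideal.image_subset_nonunits_valuationSubring
    (A := (aeval t : k[X] →ₐ[k] L).range.toSubring) (Ideal.span {⟨t, X, aeval_X t⟩}) (by
      rw [Ne, Ideal.span_singleton_eq_top, isUnit_iff_exists_inv]
      rintro ⟨⟨_, q, rfl⟩, e⟩
      have e : t * aeval t q = 1 := congrArg Subtype.val e
      have : X * q = 1 := inj (by simpa using e)
      exact not_isUnit_X (IsUnit.of_mul_eq_one _ this))
  have hk : ∀ c : k, algebraMap k L c ∈ O := fun c => h1 ⟨C c, aeval_C t c⟩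
  have ht : O.valuation t < 1 :=
    (O.mem_nonunits_iff).1 (h2 ⟨_, Ideal.subset_span rfl, rfl⟩)
  refine ⟨O, ⟨fun c => unit O hk, fun x hx => ?_, fun x y hx y0 => ?_⟩, ht⟩
  · obtain ⟨p, p0, hp⟩ := al x
    obtain ⟨q, q0, hq⟩ := approx O hk ht.le t0 hx p p0 hp
    by_contra n
    push Not at n
    refine (hq.trans_lt ht).not_ge ?_
    rw [(IsAlgClosed.splits q).eq_prod_roots, map_mul, map_mul, aeval_C,
      unit O hk (leadingCoeff_ne_zero.2 q0), one_mul, map_multiset_prod, map_multiset_prod]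
    refine Multiset.one_le_prod_of_one_le fun z hz => ?_
    simp only [Multiset.map_map, Multiset.mem_map, Function.comp] at hz
    obtain ⟨c, -, rfl⟩ := hz
    simpa using n c
  · obtain ⟨p, p0, hp⟩ := al x
    obtain ⟨q, q0, hq⟩ := approx O hk ht.le t0 hx.le p p0 hp
    obtain ⟨m, hm⟩ := aeval_eq O hk hx q0
    obtain ⟨p', p0', hp'⟩ := al y
    obtain ⟨n, hn⟩ := lower O hk ht y0 p' p0' hp'
    exact ⟨m * n, by rw [pow_mul, ← hm]; exact (pow_le_pow_left' hq n).trans hn⟩

/-- the specialisation -/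
theorem val1 {k K : Type} [Field k] [IsAlgClosed k] [Field K] [Algebra k K] {g : K}
    (tr : Transcendental k g) {S : Set K} (hS : S.Finite) :
    ∃ (L : Type) (_ : Field L) (_ : IsAlgClosed L) (_ : Algebra k L) (O : ValuationSubring L)
      (R : Subring K) (h : R →+* L), Vk k O ∧ (∀ x ∈ S, x ∈ R ∧ x⁻¹ ∈ R) ∧
      (∀ c : k, ∃ m : algebraMap k K c ∈ R, h ⟨_, m⟩ = algebraMap k L c) ∧
      ∃ m : g ∈ R, O.valuation (h ⟨g, m⟩) < 1 := by
  have inj := transcendental_iff_injective.1 tr
  let φ : RatFunc k →ₐ[k] K := RatFunc.liftAlgHom (aeval g)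
    (nonZeroDivisors_le_comap_nonZeroDivisors_of_injective _ inj)
  have hφ : ∀ q : k[X], φ (algebraMap k[X] (RatFunc k) q) = aeval g q := fun q => by
    simpa using RatFunc.liftAlgHom_apply_div (aeval g : k[X] →ₐ[k] K) _ q 1
  let _ : Algebra (RatFunc k) K := φ.toRingHom.toAlgebra
  let A := Algebra.adjoin (RatFunc k) (S ∪ S⁻¹)
  have : Algebra.FiniteType (RatFunc k) A :=
    (Subalgebra.fg_iff_finiteType _).1 (Subalgebra.fg_def.2 ⟨_, hS.union hS.inv, rfl⟩)
  obtain ⟨m, hm⟩ := Ideal.exists_maximal A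
  let _ := Ideal.Quotient.field m
  have := finite_of_finite_type_of_isJacobsonRing (RatFunc k) (A ⧸ m)
  let L := AlgebraicClosure (RatFunc k)
  let h : A →ₐ[RatFunc k] L := (IsAlgClosed.lift (R := RatFunc k) (S := A ⧸ m) (M := L)).comp
    (Ideal.Quotient.mkₐ _ m)
  have ev : ∀ q : k[X], aeval (algebraMap k[X] L X) q = algebraMap k[X] L q := fun q => by
    rw [aeval_algebraMap_apply, aeval_X_left_apply]
  obtain ⟨O, v1, v2⟩ := exists_val (k := k) (t := algebraMap k[X] L X)
    (transcendental_iff_injective.2 fun p q e => by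
      rw [ev, ev, IsScalarTower.algebraMap_apply k[X] (RatFunc k) L,
        IsScalarTower.algebraMap_apply k[X] (RatFunc k) L q] at e
      exact IsFractionRing.injective k[X] (RatFunc k) ((algebraMap (RatFunc k) L).injective e))
    fun x => by
      obtain ⟨p, p0, hp⟩ := (IsFractionRing.isAlgebraic_iff k[X] (RatFunc k) L).2
        (Algebra.IsAlgebraic.isAlgebraic x)
      exact ⟨p, p0, by rw [← hp, aeval_def]; exact congrArg (eval₂ · x p) (RingHom.ext ev)⟩
  have key : ∀ q : k[X], ∃ m : aeval g q ∈ A.toSubring, h ⟨_, m⟩ = algebraMap k[X] L q := fun q => by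
    have e : algebraMap (RatFunc k) K (algebraMap k[X] (RatFunc k) q) = aeval g q := hφ q
    refine ⟨e ▸ A.algebraMap_mem _, ?_⟩
    rw [IsScalarTower.algebraMap_apply k[X] (RatFunc k) L, ← h.commutes]
    exact congrArg h (Subtype.ext e.symm)
  refine ⟨L, inferInstance, inferInstance, inferInstance, O, A.toSubring, h.toRingHom, v1,
    fun x hx => ⟨Algebra.subset_adjoin (.inl hx), Algebra.subset_adjoin (.inr (by simpa))⟩,
    fun c => ?_, ?_⟩
  · obtain ⟨m, e⟩ := key (C c)
    refine ⟨aeval_C g c ▸ m, ?_⟩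
    rw [IsScalarTower.algebraMap_apply k k[X] L, algebraMap_eq, ← e]
    exact congrArg h (Subtype.ext (aeval_C g c).symm)
  · obtain ⟨m, e⟩ := key X
    refine ⟨aeval_X (R := k) g ▸ m, ?_⟩
    rw [← e] at v2
    exact (congrArg (fun z => O.valuation (h z)) (Subtype.ext (aeval_X g).symm)).trans_lt v2

end

end Pool.Agent.MP_8d06cc_nt.VAL
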